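import Mathlib

/-!
# The free solution of the Yang-Baxter equation is not an injective solution

Question (MP_f0defb_al, Q1). Let `X` be a non-empty set. Is the canonical map from the free
(non-degenerate, set-theoretic) solution on `X` to its structure group injective?

Answer: no, for every non-empty set `X`. Let `(F, r)` be the free solution on `X`, let `x` be the
image in `F` of an element of `X`, and let `a` be the element of `F` with `λ_x(a) = x`. In the
structure group `x ∘ a = λ_x(a) ∘ ρ_a(x) = x ∘ ρ_a(x)`, so `a` and `ρ_a(x)` have the same image.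
They are different elements of `F`: under a morphism from `F` to the solution
`r(u, v) = (v, u + 1)` on the integers modulo `2` the element `a` has the same image as `x`, and
`ρ_a(x)` has the other image.

The existence of the free solution on every set `X` is proved as well.
-/

set_option autoImplicit false

universe u

namespace Pool.Agent.Results.MP_f0defb_al.FreeSolutionNotInjective

/-- A non-degenerate set-theoretic solution `r (x, y) = (lam x y, rho y x)` of the Yang-Baxter
equation on the set `Y`; so `lam x` is `λ_x` and `rho y` is `ρ_y`. -/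
structure Solution (Y : Type u) where
  /-- `lam x y = λ_x(y)` -/
  lam : Y → Y → Y
  /-- `rho y x = ρ_y(x)` -/
  rho : Y → Y → Y
  /-- every `λ_x` is a bijection -/
  lam_bij : ∀ x, Function.Bijective (lam x)
  /-- every `ρ_y` is a bijection -/
  rho_bij : ∀ y, Function.Bijective (rho y)
  /-- the braid relation `r₁₂ r₂₃ r₁₂ = r₂₃ r₁₂ r₂₃`, where `r (x, y) = (lam x y, rho y x)` -/
  braid :
    let r : Y × Y → Y × Y := fun p => (lam p.1 p.2, rho p.2 p.1)
    let r12 : Y × Y × Y → Y × Y × Y := fun q => ((r (q.1, q.2.1)).1, (r (q.1, q.2.1)).2, q.2.2)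
    let r23 : Y × Y × Y → Y × Y × Y := fun q => (q.1, r q.2)
    ∀ q : Y × Y × Y, r12 (r23 (r12 q)) = r23 (r12 (r23 q))

/-- The map `r : Y × Y → Y × Y` of a solution. -/
def Solution.r {Y : Type u} (S : Solution Y) : Y × Y → Y × Y :=
  fun p => (S.lam p.1 p.2, S.rho p.2 p.1)

/-- A morphism of solutions: `(f × f) ∘ r = s ∘ (f × f)`. -/
def IsMorphism {Y Z : Type u} (S : Solution Y) (T : Solution Z) (f : Y → Z) : Prop :=
  Prod.map f f ∘ S.r = T.r ∘ Prod.map f f

/-- `(F, S)` with the map `i : X → F` is a free solution on `X`: every map from `X` to a solution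
`(Z, T)` extends uniquely through `i` to a morphism `F → Z`. -/
def IsFreeSolution {X F : Type u} (S : Solution F) (i : X → F) : Prop :=
  ∀ (Z : Type u) (T : Solution Z) (h : X → Z),
    ∃! f : F → Z, IsMorphism S T f ∧ ∀ x, f (i x) = h x

/-- The defining relations `x ∘ y = λ_x(y) ∘ ρ_y(x)` of the structure group. -/
def relations {Y : Type u} (S : Solution Y) : Set (FreeGroup Y) :=
  {w | ∃ x y : Y, w = (FreeGroup.of x * FreeGroup.of y) *
    (FreeGroup.of (S.lam x y) * FreeGroup.of (S.rho y x))⁻¹}

/-- The structure group `G(Y, r)`. -/
abbrev StructureGroup {Y : Type u} (S : Solution Y) : Type u := PresentedGroup (relations S)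

/-- The canonical map `g_Y : Y → G(Y, r)`. -/
def canonicalMap {Y : Type u} (S : Solution Y) (y : Y) : StructureGroup S :=
  PresentedGroup.of y

/-! ### morphisms -/

theorem morphism_lam {Y Z : Type u} {S : Solution Y} {T : Solution Z} {f : Y → Z}
    (hf : IsMorphism S T f) (x y : Y) : f (S.lam x y) = T.lam (f x) (f y) := by
  have h := congrFun hf (x, y)
  simpa [Solution.r] using congrArg Prod.fst h

theorem morphism_rho {Y Z : Type u} {S : Solution Y} {T : Solution Z} {f : Y → Z}
    (hf : IsMorphism S T f) (x y : Y) : f (S.rho y x) = T.rho (f y) (f x) := by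
  have h := congrFun hf (x, y)
  simpa [Solution.r] using congrArg Prod.snd h

/-! ### existence of the free solution -/

/-- terms in the operations `λ, ρ` and their inverse operations -/
inductive Tm (X : Type u) : Type u
  | var : X → Tm X
  | lam : Tm X → Tm X → Tm X
  | rho : Tm X → Tm X → Tm X
  | lamI : Tm X → Tm X → Tm X
  | rhoI : Tm X → Tm X → Tm X

/-- evaluation of a term in a solution -/
noncomputable def eval {X Z : Type u} (T : Solution Z) (h : X → Z) : Tm X → Z
  | .var x => h x
  | .lam s t => T.lam (eval T h s) (eval T h t)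
  | .rho s t => T.rho (eval T h s) (eval T h t)
  | .lamI s t => (Equiv.ofBijective _ (T.lam_bij (eval T h s))).symm (eval T h t)
  | .rhoI s t => (Equiv.ofBijective _ (T.rho_bij (eval T h s))).symm (eval T h t)

/-- two terms are equivalent if they have the same value for every map to every solution -/
def tmSetoid (X : Type u) : Setoid (Tm X) where
  r s t := ∀ (Z : Type u) (T : Solution Z) (h : X → Z), eval T h s = eval T h t
  iseqv := ⟨fun _ _ _ _ => rfl, fun H Z T h => (H Z T h).symm,
    fun H K Z T h => (H Z T h).trans (K Z T h)⟩

/-- the set of the free solution -/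
def FSol (X : Type u) : Type u := Quotient (tmSetoid X)

/-- `λ` on the free solution -/
def fLam {X : Type u} : FSol X → FSol X → FSol X :=
  Quotient.map₂ Tm.lam (fun _ _ H _ _ K Z T h => by simp only [eval, H Z T h, K Z T h])

/-- `ρ` on the free solution -/
def fRho {X : Type u} : FSol X → FSol X → FSol X :=
  Quotient.map₂ Tm.rho (fun _ _ H _ _ K Z T h => by simp only [eval, H Z T h, K Z T h])

/-- the inverse of `λ` on the free solution -/
def fLamI {X : Type u} : FSol X → FSol X → FSol X :=
  Quotient.map₂ Tm.lamI (fun s s' H t t' K Z T h => by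
    simp only [eval]
    rw [Equiv.symm_apply_eq]
    simp only [Equiv.ofBijective_apply]
    rw [H Z T h, K Z T h]
    exact ((Equiv.ofBijective _ (T.lam_bij (eval T h s'))).apply_symm_apply (eval T h t')).symm)

/-- the inverse of `ρ` on the free solution -/
def fRhoI {X : Type u} : FSol X → FSol X → FSol X :=
  Quotient.map₂ Tm.rhoI (fun s s' H t t' K Z T h => by
    simp only [eval]
    rw [Equiv.symm_apply_eq]
    simp only [Equiv.ofBijective_apply]
    rw [H Z T h, K Z T h]
    exact ((Equiv.ofBijective _ (T.rho_bij (eval T h s'))).apply_symm_apply (eval T h t')).symm)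

theorem fLam_fLamI {X : Type u} (a b : FSol X) : fLam a (fLamI a b) = b := by
  induction a using Quotient.inductionOn with | _ s =>
  induction b using Quotient.inductionOn with | _ t =>
  refine Quotient.sound fun Z T h => ?_
  simp only [eval]
  exact (Equiv.ofBijective _ (T.lam_bij (eval T h s))).apply_symm_apply (eval T h t)

theorem fLamI_fLam {X : Type u} (a b : FSol X) : fLamI a (fLam a b) = b := by
  induction a using Quotient.inductionOn with | _ s =>
  induction b using Quotient.inductionOn with | _ t =>
  refine Quotient.sound fun Z T h => ?_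
  simp only [eval]
  exact (Equiv.ofBijective _ (T.lam_bij (eval T h s))).symm_apply_apply (eval T h t)

theorem fRho_fRhoI {X : Type u} (a b : FSol X) : fRho a (fRhoI a b) = b := by
  induction a using Quotient.inductionOn with | _ s =>
  induction b using Quotient.inductionOn with | _ t =>
  refine Quotient.sound fun Z T h => ?_
  simp only [eval]
  exact (Equiv.ofBijective _ (T.rho_bij (eval T h s))).apply_symm_apply (eval T h t)

theorem fRhoI_fRho {X : Type u} (a b : FSol X) : fRhoI a (fRho a b) = b := by
  induction a using Quotient.inductionOn with | _ s =>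
  induction b using Quotient.inductionOn with | _ t =>
  refine Quotient.sound fun Z T h => ?_
  simp only [eval]
  exact (Equiv.ofBijective _ (T.rho_bij (eval T h s))).symm_apply_apply (eval T h t)

/-- the three component equations of the braid relation -/
theorem braid_components {Y : Type u} (S : Solution Y) (x y z : Y) :
    S.lam (S.lam x y) (S.lam (S.rho y x) z) = S.lam x (S.lam y z) ∧
    S.rho (S.lam (S.rho y x) z) (S.lam x y) = S.lam (S.rho (S.lam y z) x) (S.rho z y) ∧
    S.rho z (S.rho y x) = S.rho (S.rho z y) (S.rho (S.lam y z) x) := by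
  have h := S.braid (x, y, z)
  simp only [Prod.mk.injEq] at h
  exact h

/-- the free solution -/
def freeSol (X : Type u) : Solution (FSol X) where
  lam := fLam
  rho := fRho
  lam_bij := fun a => Function.bijective_iff_has_inverse.2
    ⟨fLamI a, fun b => fLamI_fLam a b, fun b => fLam_fLamI a b⟩
  rho_bij := fun a => Function.bijective_iff_has_inverse.2
    ⟨fRhoI a, fun b => fRhoI_fRho a b, fun b => fRho_fRhoI a b⟩
  braid := by
    rintro r r12 r23 ⟨a, b, c⟩
    induction a using Quotient.inductionOn with | _ s =>
    induction b using Quotient.inductionOn with | _ t =>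
    induction c using Quotient.inductionOn with | _ v =>
    refine Prod.ext ?_ (Prod.ext ?_ ?_)
    · refine Quotient.sound fun Z T h => ?_
      exact (braid_components T (eval T h s) (eval T h t) (eval T h v)).1
    · refine Quotient.sound fun Z T h => ?_
      exact (braid_components T (eval T h s) (eval T h t) (eval T h v)).2.1
    · refine Quotient.sound fun Z T h => ?_
      exact (braid_components T (eval T h s) (eval T h t) (eval T h v)).2.2

/-- the map `i : X → FSol_X` -/
def inc {X : Type u} (x : X) : FSol X := Quotient.mk (tmSetoid X) (Tm.var x)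

theorem freeSol_isFree (X : Type u) : IsFreeSolution (freeSol X) (inc (X := X)) := by
  intro Z T h
  refine ⟨Quotient.lift (eval T h) (fun s t H => H Z T h), ⟨?_, fun x => rfl⟩, ?_⟩
  · funext p
    obtain ⟨a, b⟩ := p
    induction a using Quotient.inductionOn with | _ s =>
    induction b using Quotient.inductionOn with | _ t =>
    rfl
  · rintro f ⟨hf, hx⟩
    funext a
    induction a using Quotient.inductionOn with | _ t =>
    show f (Quotient.mk (tmSetoid X) t) = eval T h t
    induction t with
    | var x => exact hx x
    | lam s t hs ht =>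
      have h1 := morphism_lam hf (Quotient.mk (tmSetoid X) s) (Quotient.mk (tmSetoid X) t)
      rw [hs, ht] at h1
      exact h1
    | rho s t hs ht =>
      have h1 := morphism_rho hf (Quotient.mk (tmSetoid X) t) (Quotient.mk (tmSetoid X) s)
      rw [hs, ht] at h1
      exact h1
    | lamI s t hs ht =>
      have h1 := morphism_lam hf (Quotient.mk (tmSetoid X) s)
        (Quotient.mk (tmSetoid X) (Tm.lamI s t))
      have h2 : (freeSol X).lam (Quotient.mk (tmSetoid X) s)
        (Quotient.mk (tmSetoid X) (Tm.lamI s t)) = Quotient.mk (tmSetoid X) t :=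
        fLam_fLamI (Quotient.mk (tmSetoid X) s) (Quotient.mk (tmSetoid X) t)
      rw [h2, hs, ht] at h1
      simp only [eval]
      rw [Equiv.eq_symm_apply]
      exact h1.symm
    | rhoI s t hs ht =>
      have h1 := morphism_rho hf (Quotient.mk (tmSetoid X) (Tm.rhoI s t))
        (Quotient.mk (tmSetoid X) s)
      have h2 : (freeSol X).rho (Quotient.mk (tmSetoid X) s)
        (Quotient.mk (tmSetoid X) (Tm.rhoI s t)) = Quotient.mk (tmSetoid X) t :=
        fRho_fRhoI (Quotient.mk (tmSetoid X) s) (Quotient.mk (tmSetoid X) t)
      rw [h2, hs, ht] at h1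
      simp only [eval]
      rw [Equiv.eq_symm_apply]
      exact h1.symm

/-! ### the solution on two elements -/

/-- the solution `r (u, v) = (v, not u)` -/
def twist : Solution (ULift.{u} Bool) where
  lam := fun _ v => v
  rho := fun _ x => ⟨!x.down⟩
  lam_bij := fun _ => Function.bijective_id
  rho_bij := fun _ => Function.bijective_iff_has_inverse.2
    ⟨fun x => ⟨!x.down⟩, fun x => by simp, fun x => by simp⟩
  braid := by
    rintro r r12 r23 ⟨a, b, c⟩
    simp [r, r12, r23]

/-- In the structure group, `a` and `ρ_a(x)` have the same image if `λ_x(a) = x`. -/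
theorem canonicalMap_eq {Y : Type u} (S : Solution Y) {x a : Y} (h : S.lam x a = x) :
    canonicalMap S a = canonicalMap S (S.rho a x) := by
  have h1 : PresentedGroup.mk (relations S) ((FreeGroup.of x * FreeGroup.of a) *
      (FreeGroup.of (S.lam x a) * FreeGroup.of (S.rho a x))⁻¹) = 1 :=
    PresentedGroup.one_of_mem ⟨x, a, rfl⟩
  rw [h, map_mul, map_inv, mul_inv_eq_one, map_mul, map_mul] at h1
  exact mul_left_cancel h1

/-- **The free solution of the Yang-Baxter equation on a non-empty set is not injective.**
A free solution on `X` exists, and for every free solution `(F, S)` on a non-empty set `X`, with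
`i : X → F`, the canonical map from `F` to the structure group is not injective. In fact for every
`x` in `X` the element `a` of `F` with `λ_(i x)(a) = i x` and the element `ρ_a(i x)` are different
and have the same image in the structure group. -/
theorem result (X : Type u) :
    (∃ (F : Type u) (S : Solution F) (i : X → F), IsFreeSolution S i) ∧
    ∀ (F : Type u) (S : Solution F) (i : X → F), IsFreeSolution S i →
      (∀ x : X, ∃ a : F, S.lam (i x) a = i x ∧ a ≠ S.rho a (i x) ∧
        canonicalMap S a = canonicalMap S (S.rho a (i x))) ∧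
      (Nonempty X → ¬ Function.Injective (canonicalMap S)) := by
  refine ⟨⟨FSol X, freeSol X, inc, freeSol_isFree X⟩, fun F S i hfree => ?_⟩
  have key : ∀ x : X, ∃ a : F, S.lam (i x) a = i x ∧ a ≠ S.rho a (i x) ∧
      canonicalMap S a = canonicalMap S (S.rho a (i x)) := by
    intro x
    obtain ⟨a, ha⟩ := (S.lam_bij (i x)).2 (i x)
    refine ⟨a, ha, ?_, canonicalMap_eq S ha⟩
    intro hne
    obtain ⟨f, ⟨hf, _⟩, _⟩ := hfree (ULift.{u} Bool) twist (fun _ => ⟨true⟩)
    have h1 : f a = f (i x) := by
      have h2 := morphism_lam hf (i x) a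
      rw [ha] at h2
      exact h2.symm
    have h3 : f (S.rho a (i x)) = ⟨!(f (i x)).down⟩ := morphism_rho hf (i x) a
    rw [← hne, h1] at h3
    have h4 := congrArg ULift.down h3
    simp at h4
  refine ⟨key, fun ⟨x⟩ hinj => ?_⟩
  obtain ⟨a, _, hne, heq⟩ := key x
  exact hne (hinj heq)

end Pool.Agent.Results.MP_f0defb_al.FreeSolutionNotInjective
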